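import Mathlib
import Pool.Agent.Lib.MP_8026b0_co.A01
import Pool.Agent.Lib.MP_8026b0_co.N04

set_option autoImplicit false

open MeasureTheory Filter Topology Metric

namespace Pool.Agent.Results.MP_8026b0_co.OptimalShape

/-- The Euclidean plane. -/
abbrev Plane := EuclideanSpace ℝ (Fin 2)

/-- The closed rectangle `[0,a] × [0,b]`. -/
def box (a b : ℝ) : Set Plane := {p | 0 ≤ p 0 ∧ p 0 ≤ a ∧ 0 ≤ p 1 ∧ p 1 ≤ b}

/-- `R` is a closed rectangle, in any position, with side lengths `a ≤ b`. -/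
def IsRectangle (R : Set Plane) (a b : ℝ) : Prop :=
  0 < a ∧ a ≤ b ∧ ∃ f : Plane ≃ᵢ Plane, R = f '' box a b

/-- `R` contains `n` closed unit discs with pairwise disjoint interiors. -/
def HoldsDiscs (R : Set Plane) (n : ℕ) : Prop :=
  ∃ c : Fin n → Plane, (∀ i, closedBall (c i) 1 ⊆ R) ∧
    ∀ i j, i ≠ j → Disjoint (interior (closedBall (c i) 1)) (interior (closedBall (c j) 1))

/-- `R` is an optimal rectangle for `n`: it holds `n` unit discs and has minimal area among all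
rectangles that hold `n` unit discs. -/
def IsOptimal (R : Set Plane) (n : ℕ) : Prop :=
  (∃ a b, IsRectangle R a b) ∧ HoldsDiscs R n ∧
    ∀ (R' : Set Plane) (a' b' : ℝ), IsRectangle R' a' b' → HoldsDiscs R' n →
      volume R ≤ volume R'

theorem dist_sq (c d : Plane) : dist c d ^ 2 = (c 0 - d 0) ^ 2 + (c 1 - d 1) ^ 2 := by
  rw [EuclideanSpace.dist_eq, Real.sq_sqrt (Finset.sum_nonneg fun i _ => sq_nonneg _),
    Fin.sum_univ_two, Real.dist_eq, Real.dist_eq, sq_abs, sq_abs]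

theorem ball_sub_box {c : Plane} {a b : ℝ} :
    closedBall c 1 ⊆ box a b ↔ 1 ≤ c 0 ∧ c 0 ≤ a - 1 ∧ 1 ≤ c 1 ∧ c 1 ≤ b - 1 := by
  constructor
  · intro h
    have key : ∀ u v : ℝ, u ^ 2 + v ^ 2 ≤ 1 → (!₂[c 0 + u, c 1 + v] : Plane) ∈ box a b := by
      intro u v huv
      apply h
      rw [mem_closedBall]
      have h2 : dist (!₂[c 0 + u, c 1 + v] : Plane) c ^ 2 ≤ 1 ^ 2 := by
        rw [dist_sq]
        simp only [Matrix.cons_val_zero, Matrix.cons_val_one]
        nlinarith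
      exact le_of_sq_le_sq h2 (by norm_num)
    have h1 := key (-1) 0 (by norm_num)
    have h2 := key 1 0 (by norm_num)
    have h3 := key 0 (-1) (by norm_num)
    have h4 := key 0 1 (by norm_num)
    simp only [box, Set.mem_ofPred_eq, Matrix.cons_val_zero, Matrix.cons_val_one] at h1 h2 h3 h4
    refine ⟨by linarith [h1.1], by linarith [h2.2.1], by linarith [h3.2.2.1], by linarith [h4.2.2.2]⟩
  · rintro ⟨h1, h2, h3, h4⟩ p hp
    rw [mem_closedBall] at hp
    have hd := dist_sq p c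
    have hd2 : dist p c ^ 2 ≤ 1 := by
      have : dist p c ^ 2 ≤ 1 ^ 2 := pow_le_pow_left₀ dist_nonneg hp 2
      linarith
    have e0 : |p 0 - c 0| ≤ 1 := by
      rw [← sq_le_one_iff_abs_le_one]; nlinarith [sq_nonneg (p 1 - c 1)]
    have e1 : |p 1 - c 1| ≤ 1 := by
      rw [← sq_le_one_iff_abs_le_one]; nlinarith [sq_nonneg (p 0 - c 0)]
    obtain ⟨e01, e02⟩ := abs_le.1 e0
    obtain ⟨e11, e12⟩ := abs_le.1 e1
    exact ⟨by linarith, by linarith, by linarith, by linarith⟩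

theorem disj_iff {c d : Plane} :
    Disjoint (interior (closedBall c 1)) (interior (closedBall d 1)) ↔
      4 ≤ (c 0 - d 0) ^ 2 + (c 1 - d 1) ^ 2 := by
  rw [interior_closedBall c one_ne_zero, interior_closedBall d one_ne_zero,
    disjoint_ball_ball_iff one_pos one_pos, ← dist_sq]
  constructor
  · intro h
    have : (1 + 1 : ℝ) ^ 2 ≤ dist c d ^ 2 := pow_le_pow_left₀ (by norm_num) h 2
    linarith
  · intro h
    exact le_of_sq_le_sq (by linarith) dist_nonneg

theorem holds_box {a b : ℝ} {n : ℕ} : HoldsDiscs (box a b) n ↔ Pool.Agent.LG.Holds n a b := by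
  constructor
  · rintro ⟨c, h1, h2⟩
    exact ⟨fun i => c i 0, fun i => c i 1, fun i => ball_sub_box.1 (h1 i),
      fun i j hij => disj_iff.1 (h2 i j hij)⟩
  · rintro ⟨x, y, h1, h2⟩
    refine ⟨fun i => !₂[x i, y i], fun i => ball_sub_box.2 ?_, fun i j hij => disj_iff.2 ?_⟩
    · simpa using h1 i
    · simpa using h2 i j hij

theorem holds_image (f : Plane ≃ᵢ Plane) {S : Set Plane} {n : ℕ} (h : HoldsDiscs S n) :
    HoldsDiscs (f '' S) n := by
  obtain ⟨c, h1, h2⟩ := h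
  refine ⟨fun i => f (c i), fun i => ?_, fun i j hij => ?_⟩
  · rw [← IsometryEquiv.image_closedBall]
    exact Set.image_mono (h1 i)
  · have h3 := h2 i j hij
    rw [interior_closedBall _ one_ne_zero, interior_closedBall _ one_ne_zero,
      disjoint_ball_ball_iff one_pos one_pos] at h3 ⊢
    rwa [f.dist_eq]

theorem holds_image_iff (f : Plane ≃ᵢ Plane) {S : Set Plane} {n : ℕ} :
    HoldsDiscs (f '' S) n ↔ HoldsDiscs S n := by
  refine ⟨fun h => ?_, holds_image f⟩
  have := holds_image f.symm h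
  rwa [← Set.image_comp, IsometryEquiv.symm_comp_self, Set.image_id] at this

theorem volume_image (f : Plane ≃ᵢ Plane) (S : Set Plane) : volume (f '' S) = volume S := by
  have e : f '' S = (fun x => x + f 0) '' (f.toRealLinearIsometryEquiv '' S) := by
    rw [← Set.image_comp]
    apply Set.image_congr
    intro x _
    simp
  rw [e, Set.image_add_right, measure_preimage_add_right,
    LinearIsometryEquiv.image_eq_preimage_symm]
  exact (f.toRealLinearIsometryEquiv.symm.measurePreserving).measure_preimage_equiv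
    (f := f.toRealLinearIsometryEquiv.symm.toHomeomorph.toMeasurableEquiv) S

theorem volume_box {a b : ℝ} (ha : 0 ≤ a) (hb : 0 ≤ b) :
    volume (box a b) = ENNReal.ofReal (a * b) := by
  have e : box a b = (WithLp.ofLp : Plane → (Fin 2 → ℝ)) ⁻¹' (Set.Icc 0 ![a, b]) := by
    ext p
    simp only [box, Set.mem_ofPred_eq, Set.mem_preimage, Set.mem_Icc, Pi.le_def, Fin.forall_fin_two,
      Pi.zero_apply, Matrix.cons_val_zero, Matrix.cons_val_one]
    tauto
  rw [e, (PiLp.volume_preserving_ofLp (Fin 2)).measure_preimage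
    measurableSet_Icc.nullMeasurableSet, Real.volume_Icc_pi]
  simp [Fin.prod_univ_two, ENNReal.ofReal_mul ha]

theorem volume_rect {R : Set Plane} {a b : ℝ} (h : IsRectangle R a b) :
    volume R = ENNReal.ofReal (a * b) := by
  obtain ⟨ha, hab, f, rfl⟩ := h
  rw [volume_image, volume_box ha.le (ha.le.trans hab)]

theorem holds_rect {R : Set Plane} {a b : ℝ} {n : ℕ} (h : IsRectangle R a b) :
    HoldsDiscs R n ↔ Pool.Agent.LG.Holds n a b := by
  obtain ⟨ha, hab, f, rfl⟩ := h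
  rw [holds_image_iff, holds_box]

theorem holds_swap {n : ℕ} {a b : ℝ} (h : Pool.Agent.LG.Holds n a b) :
    Pool.Agent.LG.Holds n b a := by
  obtain ⟨x, y, h1, h2⟩ := h
  refine ⟨y, x, fun i => ?_, fun i j hij => ?_⟩
  · obtain ⟨p, q, r, s⟩ := h1 i
    exact ⟨r, s, p, q⟩
  · linarith [h2 i j hij]

theorem isRect_box {a b : ℝ} (ha : 0 < a) (hab : a ≤ b) : IsRectangle (box a b) a b :=
  ⟨ha, hab, IsometryEquiv.refl _, (Set.image_id _).symm⟩

/-- an optimal rectangle minimises the product of the sides -/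
theorem opt_min {R : Set Plane} {a b : ℝ} {n : ℕ} (hn : 0 < n) (h : IsOptimal R n)
    (hR : IsRectangle R a b) :
    ∀ a' b' : ℝ, Pool.Agent.LG.Holds n a' b' → a * b ≤ a' * b' := by
  have main : ∀ a' b' : ℝ, a' ≤ b' → Pool.Agent.LG.Holds n a' b' → a * b ≤ a' * b' := by
    intro a' b' hab' hh
    obtain ⟨ha2, hb2⟩ := hh.two_le hn
    have hR' := isRect_box (by linarith : 0 < a') hab'
    have h1 := h.2.2 _ a' b' hR' ((holds_rect hR').2 hh)
    rw [volume_rect hR, volume_rect hR'] at h1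
    exact (ENNReal.ofReal_le_ofReal_iff (by positivity)).1 h1
  intro a' b' hh
  rcases le_total a' b' with h1 | h1
  · exact main a' b' h1 hh
  · rw [mul_comm a' b']
    exact main b' a' h1 (holds_swap hh)

/-- existence of optimal rectangles -/
theorem exists_optimal {n : ℕ} (hn : 0 < n) : ∃ R, IsOptimal R n := by
  classical
  -- the compact set of all (a, b, x, y)
  set T : Set (ℝ × ℝ × (Fin n → ℝ) × (Fin n → ℝ)) :=
    {q | q.1 ≤ q.2.1 ∧ q.1 * q.2.1 ≤ 4 * n ∧
      (∀ i, 1 ≤ q.2.2.1 i ∧ q.2.2.1 i ≤ q.1 - 1 ∧ 1 ≤ q.2.2.2 i ∧ q.2.2.2 i ≤ q.2.1 - 1) ∧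
      ∀ i j, i ≠ j → 4 ≤ (q.2.2.1 i - q.2.2.1 j) ^ 2 + (q.2.2.2 i - q.2.2.2 j) ^ 2} with hT
  have hn1 : (1 : ℝ) ≤ n := by exact_mod_cast hn
  have hTc : IsClosed T := by
    rw [hT]
    simp only [Set.ofPred_and, Set.ofPred_forall]
    refine IsClosed.inter (isClosed_le (by fun_prop) (by fun_prop)) (IsClosed.inter
      (isClosed_le (by fun_prop) (by fun_prop)) (IsClosed.inter (isClosed_iInter fun i => ?_)
      (isClosed_iInter fun i => isClosed_iInter fun j => isClosed_iInter fun _ =>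
        isClosed_le (by fun_prop) (by fun_prop))))
    exact IsClosed.inter (isClosed_le (by fun_prop) (by fun_prop)) (IsClosed.inter
      (isClosed_le (by fun_prop) (by fun_prop)) (IsClosed.inter
      (isClosed_le (by fun_prop) (by fun_prop)) (isClosed_le (by fun_prop) (by fun_prop))))
  have hTb : T ⊆ Set.Icc ((0 : ℝ), (0 : ℝ), (fun _ => 0), fun _ => 0)
      (2 * n, 2 * n, (fun _ => 2 * n), fun _ => 2 * n) := by
    rintro ⟨a, b, x, y⟩ ⟨h1, h2, h3, h4⟩
    simp only at h1 h2 h3 h4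
    have ha : 2 ≤ a := by linarith [(h3 ⟨0, hn⟩).1, (h3 ⟨0, hn⟩).2.1]
    have hb : b ≤ 2 * n := by nlinarith
    simp only [Set.mem_Icc, Prod.le_def, Pi.le_def]
    refine ⟨⟨by linarith, by linarith, fun i => by linarith [(h3 i).1],
      fun i => by linarith [(h3 i).2.2.1]⟩, ⟨by linarith, hb, fun i => by linarith [(h3 i).2.1],
      fun i => by linarith [(h3 i).2.2.2]⟩⟩
  have hTcomp : IsCompact T := IsCompact.of_isClosed_subset isCompact_Icc hTc hTb
  have hTne : T.Nonempty := by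
    refine ⟨(2, 2 * n, (fun _ => 1), fun i => 2 * (i : ℕ) + 1), ?_⟩
    simp only [hT, Set.mem_ofPred_eq]
    refine ⟨by linarith, by linarith, fun i => ⟨le_rfl, by norm_num, ?_, ?_⟩, fun i j hij => ?_⟩
    · have : (0 : ℝ) ≤ ((i : ℕ) : ℝ) := Nat.cast_nonneg _
      linarith
    · have : ((i : ℕ) : ℝ) + 1 ≤ n := by exact_mod_cast i.2
      linarith
    · have h1 : ((i : ℕ) : ℤ) - ((j : ℕ) : ℤ) ≠ 0 := by
        intro h
        apply hij
        apply Fin.ext
        omega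
      have h2 : (1 : ℤ) ≤ (((i : ℕ) : ℤ) - ((j : ℕ) : ℤ)) ^ 2 := by
        have := sq_pos_of_ne_zero h1
        omega
      have h3 : (1 : ℝ) ≤ (((i : ℕ) : ℝ) - ((j : ℕ) : ℝ)) ^ 2 := by exact_mod_cast h2
      nlinarith
  obtain ⟨⟨a, b, x, y⟩, hq, hmin⟩ := hTcomp.exists_isMinOn hTne
    (f := fun q : ℝ × ℝ × (Fin n → ℝ) × (Fin n → ℝ) => q.1 * q.2.1) (by fun_prop)
  obtain ⟨h1, h2, h3, h4⟩ := hq
  simp only at h1 h2 h3 h4
  have hh : Pool.Agent.LG.Holds n a b := ⟨x, y, h3, h4⟩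
  obtain ⟨ha, hb⟩ := hh.two_le hn
  have hR := isRect_box (by linarith : 0 < a) h1
  refine ⟨box a b, ⟨a, b, hR⟩, (holds_rect hR).2 hh, ?_⟩
  intro R' a' b' hR' hh'
  rw [volume_rect hR, volume_rect hR']
  apply ENNReal.ofReal_le_ofReal
  obtain ⟨x', y', h3', h4'⟩ := (holds_rect hR').1 hh'
  by_cases hc : a' * b' ≤ 4 * n
  · have := hmin (show (a', b', x', y') ∈ T from ⟨hR'.2.1, hc, h3', h4'⟩)
    simpa using this
  · linarith

/-- Optimal rectangles for `n` unit discs exist for every `n ≥ 1`, and if `R n` is an optimal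
rectangle for `n`, with sides `a n ≤ b n`, for every `n ≥ 1`, then `a n / b n → 2 - √3`. -/
theorem result :
    (∀ n : ℕ, 1 ≤ n → ∃ R, IsOptimal R n) ∧
    ∀ (R : ℕ → Set Plane) (a b : ℕ → ℝ),
      (∀ n, 1 ≤ n → IsOptimal (R n) n ∧ IsRectangle (R n) (a n) (b n)) →
      Tendsto (fun n => a n / b n) atTop (𝓝 (2 - Real.sqrt 3)) := by
  refine ⟨fun n hn => exists_optimal hn, fun R a b h => ?_⟩
  rw [Metric.tendsto_atTop]
  intro ε hε
  obtain ⟨N, hN⟩ := Pool.Agent.LG.limit_ratio Pool.Agent.LG.main_ineq Pool.Agent.LG.oler_ineq ε hε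
  refine ⟨max N 1, fun n hn => ?_⟩
  obtain ⟨h1, h2⟩ := h n ((le_max_right _ _).trans hn)
  rw [Real.dist_eq]
  exact hN n ((le_max_left _ _).trans hn) (a n) (b n) h2.2.1 ((holds_rect h2).1 h1.2.1)
    (opt_min ((le_max_right _ _).trans hn) h1 h2)

end Pool.Agent.Results.MP_8026b0_co.OptimalShape
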